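import Pool.Agent.Y602.ED.FO
import Pool.Agent.Y602.ED.Fun

/-!
# Equidominating graphs: first-order definability, and construction of the weights

A single first-order sentence in the language of graphs (adjacency and equality) defines the
equidominating graphs among all finite graphs.  EQUIDOMINATION is in P (and in NP), and the search
problem is polynomial too: weights and a target (in binary) are computed in polynomial time for
every equidominating graph, the target being less than `(2 n + 3) ^ (n ^ 2)`.  Exponentially large
numbers cannot be avoided: the least target of a disjoint union of `m` edges is `2 ^ m - 1`.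

This is a stronger form of `Pool.Agent.Results.MP_e5edb0_lc.EquidominationInP`, whose
characterisation of the equidominating graphs (`Pool.Agent.H692R2.Equi.equidominating_iff`) is used.
-/

namespace Pool.Agent.Results.MP_e5edb0_lc.FirstOrderDefinable

open Pool.Agent.NPC Pool.Agent.H692R2.Equi Pool.Agent.Y602.ED

theorem result :
    -- one first-order sentence defines the finite equidominating graphs
    (∃ φ : FirstOrder.Language.graph.Sentence,
      ∀ (V : Type) [Fintype V] (G : SimpleGraph V),
        Equidominating G ↔ @FirstOrder.Language.Sentence.Realize _ V G.structure φ) ∧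
    -- EQUIDOMINATION (for adjacency lists) is in P and in NP
    InPP EquidominationL ∧ InNPP EquidominationL ∧
    -- an equidominating structure is computed in polynomial time whenever there is one
    (∃ f : List (List ℕ) → List ℕ × ℕ, NPC.Poly f ∧
      ∀ (L : List (List ℕ)) (n : ℕ) (G : SimpleGraph (Fin n)), IsAdjLists L G →
        Equidominating G →
          (f L).1.length = n ∧ IsStructure G (fun v => (f L).1.getD v 0) (f L).2 ∧
            (f L).2 < (2 * n + 3) ^ (n * n)) ∧
    -- exponentially large numbers are necessary
    ∀ m : ℕ, 0 < m →
      IsLeast {t : ℕ | ∃ ω : Fin m × Bool → ℕ, IsStructure (mK2 m) ω t} (2 ^ m - 1) := by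
  have hP : InPP EquidominationL := inPP_of_PP pp_equidominationL
  refine ⟨⟨fCrit, fun V _ G => ?_⟩, hP, InP.inNP hP, ⟨eds, poly_eds, ?_⟩, ?_⟩
  · rw [realize_crit, equidominating_iff]
  · intro L n G hL hG
    exact eds_spec L G hL hG
  · intro m hm
    refine ⟨⟨_, structure_mK2 hm⟩, ?_⟩
    rintro t ⟨ω, h⟩
    have := target_ge h
    omega

end Pool.Agent.Results.MP_e5edb0_lc.FirstOrderDefinable
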